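import Pool.Agent.Y655.CTE.Ram
import Pool.Agent.Y715.T.Gi

/-!
# Project CF: ramification in the cubic extension `K(θ)`, `θ³ = D`, for a cube-free `D`

Adapted from the file `Y655/CTE/Ram.lean` (squarefree `D`).
-/

set_option autoImplicit false

namespace Pool.Agent.R419.CE

open NumberField IsDedekindDomain WithZero
open Pool.Agent.Y692.QS (Ei w nr mul_re mul_im)
open Pool.Agent.Y696.CTE (Cub)
open Pool.Agent.Y655.CTE (cube_exp)
open Pool.Agent.Y715.T.Gi (CF)

theorem below_val' {K F : Type} [Field K] [NumberField K] [Field F] [NumberField F] [Algebra K F]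
    (P : HeightOneSpectrum (𝓞 K)) (v : HeightOneSpectrum (𝓞 F))
    [v.asIdeal.LiesOver P.asIdeal] (x : 𝓞 K) (m : ℤ) (hx : P.intValuation x = exp (-m)) :
    v.intValuation (algebraMap (𝓞 K) (𝓞 F) x) =
      exp (-((P.asIdeal.ramificationIdx' v.asIdeal : ℤ) * m)) := by
  rw [← HeightOneSpectrum.intValuation_liesOver P v x, hx, ← exp_nsmul]
  congr 1
  simp

/-- **total ramification** -/
theorem ramf (K F : Type) [Field K] [NumberField K] [Field F] [NumberField F]
    [Algebra K F] (j : Ei ≃+* 𝓞 K) (D : Ei) (θ : 𝓞 F) (hC : Cub j D θ) (hcf : CF D)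
    (P : HeightOneSpectrum (𝓞 K)) (hP : j D ∈ P.asIdeal) : ∃ v : HeightOneSpectrum (𝓞 F),
    (∀ u : HeightOneSpectrum (𝓞 F), u.asIdeal.comap (algebraMap (𝓞 K) (𝓞 F)) = P.asIdeal ↔
      u = v) ∧
    Nat.card (𝓞 F ⧸ v.asIdeal) = Nat.card (𝓞 K ⧸ P.asIdeal) := by
  classical
  have hpid : IsPrincipalIdealRing (𝓞 K) :=
    IsPrincipalIdealRing.of_surjective (j : Ei →+* 𝓞 K) j.surjective
  obtain ⟨p, hp⟩ := (IsPrincipalIdealRing.principal P.asIdeal).principal
  rw [Ideal.submodule_span_eq] at hp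
  have hp0 : p ≠ 0 := by
    rintro rfl
    apply P.ne_bot
    rw [hp]
    simp
  have hpp : Prime p := (Ideal.span_singleton_prime hp0).1 (hp ▸ P.isPrime)
  obtain ⟨c, hc⟩ : p ∣ j D := by
    rw [hp] at hP
    exact Ideal.mem_span_singleton.1 hP
  obtain ⟨m, hm, hPval⟩ : ∃ m : ℤ, (m = 1 ∨ m = 2) ∧ P.intValuation (j D) = exp (-m) := by
    by_cases hpc : c ∈ P.asIdeal
    · rw [hp, Ideal.mem_span_singleton] at hpc
      obtain ⟨b, hb⟩ := hpc
      have hpb : b ∉ P.asIdeal := by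
        intro h
        rw [hp, Ideal.mem_span_singleton] at h
        obtain ⟨c', hc'⟩ := h
        have h1 : (j.symm p) ^ 3 ∣ D := by
          refine ⟨j.symm c', ?_⟩
          apply j.injective
          rw [map_mul, map_pow, j.apply_symm_apply, j.apply_symm_apply, hc, hb, hc']
          ring
        have h2 := hcf.2 _ h1
        exact hpp.not_isUnit ((MulEquiv.isUnit_map j.symm.toMulEquiv).1 h2)
      refine ⟨2, Or.inr rfl, ?_⟩
      rw [hc, hb, map_mul, map_mul, P.intValuation_singleton hp0 hp,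
        HeightOneSpectrum.intValuation_eq_one_iff.2 hpb, mul_one, ← exp_add]
      norm_num
    · refine ⟨1, Or.inl rfl, ?_⟩
      rw [hc, map_mul, P.intValuation_singleton hp0 hp,
        HeightOneSpectrum.intValuation_eq_one_iff.2 hpc, mul_one]
  have hmax := P.isMaximal
  have key : ∀ Q ∈ IsDedekindDomain.primesOverFinset P.asIdeal (𝓞 F),
      3 ∣ P.asIdeal.ramificationIdx' Q ∧ 0 < P.asIdeal.ramificationIdx' Q ∧
        0 < P.asIdeal.inertiaDeg' Q := by
    intro Q hQ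
    obtain ⟨hQ1, hQ2⟩ := (IsDedekindDomain.mem_primesOverFinset_iff P.ne_bot (B := 𝓞 F)).1 hQ
    have hQ0 : Q ≠ ⊥ := Ideal.ne_bot_of_liesOver_of_ne_bot P.ne_bot Q
    let v : HeightOneSpectrum (𝓞 F) := ⟨Q, hQ1, hQ0⟩
    have hv : v.asIdeal.LiesOver P.asIdeal := hQ2
    have h1 := below_val' P v (j D) m hPval
    rw [← hC.cube, map_pow] at h1
    have h2 := cube_exp h1
    have h3 : (3 : ℤ) ∣ (P.asIdeal.ramificationIdx' Q : ℤ) := by
      rcases hm with rfl | rfl
      · simpa using h2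
      · have h4 : (3 : ℤ) ∣ (P.asIdeal.ramificationIdx' Q : ℤ) * 2 := h2
        omega
    refine ⟨by exact_mod_cast h3, ?_, Ideal.inertiaDeg'_pos _ _⟩
    exact Nat.pos_of_ne_zero (Ideal.IsDedekindDomain.ramificationIdx'_ne_zero_of_liesOver Q P.ne_bot)
  have hsum := Ideal.sum_ramification_inertia (𝓞 F) K F (p := P.asIdeal) P.ne_bot
  rw [hC.deg] at hsum
  have hge : ∀ Q ∈ IsDedekindDomain.primesOverFinset P.asIdeal (𝓞 F),
      3 ≤ P.asIdeal.ramificationIdx' Q * P.asIdeal.inertiaDeg' Q := by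
    intro Q hQ
    obtain ⟨h1, h2, h3⟩ := key Q hQ
    have h4 := Nat.le_of_dvd h2 h1
    exact h4.trans (Nat.le_mul_of_pos_right _ h3)
  have hcard : (IsDedekindDomain.primesOverFinset P.asIdeal (𝓞 F)).card = 1 := by
    have h1 := Finset.card_nsmul_le_sum _ _ 3 hge
    rw [hsum, smul_eq_mul] at h1
    have h2 : (IsDedekindDomain.primesOverFinset P.asIdeal (𝓞 F)).card ≠ 0 := by
      intro h0
      rw [Finset.card_eq_zero] at h0
      rw [h0, Finset.sum_empty] at hsum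
      omega
    omega
  obtain ⟨Q, hQ⟩ := Finset.card_eq_one.1 hcard
  have hQm : Q ∈ IsDedekindDomain.primesOverFinset P.asIdeal (𝓞 F) := by rw [hQ]; simp
  obtain ⟨hQ1, hQ2⟩ := (IsDedekindDomain.mem_primesOverFinset_iff P.ne_bot (B := 𝓞 F)).1 hQm
  have hQ0 : Q ≠ ⊥ := Ideal.ne_bot_of_liesOver_of_ne_bot P.ne_bot Q
  obtain ⟨k1, k2, k3⟩ := key Q hQm
  rw [hQ, Finset.sum_singleton] at hsum
  have hf : P.asIdeal.inertiaDeg' Q = 1 := by
    have h4 := Nat.le_of_dvd k2 k1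
    nlinarith
  refine ⟨⟨Q, hQ1, hQ0⟩, ?_, ?_⟩
  · intro u
    constructor
    · intro hu
      have h1 : u.asIdeal ∈ IsDedekindDomain.primesOverFinset P.asIdeal (𝓞 F) :=
        (IsDedekindDomain.mem_primesOverFinset_iff P.ne_bot (B := 𝓞 F)).2
          ⟨u.isPrime, ⟨hu.symm⟩⟩
      rw [hQ, Finset.mem_singleton] at h1
      exact HeightOneSpectrum.ext h1
    · rintro rfl
      exact hQ2.over.symm
  · show Nat.card (𝓞 F ⧸ Q) = Nat.card (𝓞 K ⧸ P.asIdeal)
    rw [Ideal.inertiaDeg'_algebraMap] at hf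
    let _ : Field (𝓞 K ⧸ P.asIdeal) := Ideal.Quotient.field P.asIdeal
    have := Module.natCard_eq_pow_finrank (K := 𝓞 K ⧸ P.asIdeal) (V := 𝓞 F ⧸ Q)
    rw [this, hf, pow_one]

end Pool.Agent.R419.CE
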