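import Pool.Agent.Y696.CTK.Asm
import Pool.Agent.Y696.CTE.Tw
import Pool.Agent.R419.CE.Ram

/-!
# Project CF: cube-free products of primary primes in the Eisenstein integers
-/

set_option autoImplicit false

open scoped Classical

namespace Pool.Agent.R419.CE

open NumberField IsDedekindDomain WeierstrassCurve WithZero
open Pool.Agent.Y692.QS (Ei w toC)
open Pool.Agent.Y715.T.Rec (cs)
open Pool.Agent.Y715.T.RecG (Pq)
open Pool.Agent.Y703.CT
open Pool.Agent.Y715.T.Gi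
open Pool.Agent.Y696.CTE (Cub)

lemma val_ne {c : ZMod 3} (h : c ≠ 0) : c.val ≠ 0 := fun h' => h ((ZMod.val_eq_zero c).1 h')

/-- a cube-free number is not a cube -/
lemma ncube {D : Ei} (hcf : CF D) (hD : ¬ IsUnit D) : ∀ x : Ei, x ^ 3 ≠ D := by
  intro x hx
  apply hD
  rw [← hx]
  exact (hcf.2 x (by rw [hx])).pow 3

section
variable {J : Type} [Fintype J] {π : J → Ei} {e : J → ZMod 3}

lemma three_pow {x : Ei} (h : (3 : Ei) ∣ x - 1) (n : ℕ) : (3 : Ei) ∣ x ^ n - 1 :=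
  h.trans (by simpa using sub_dvd_pow_sub_pow x 1 n)

lemma three_pD (hD : Dt π e) : (3 : Ei) ∣ pD π e - 1 := by
  unfold pD
  refine Finset.prod_induction (fun i => π i ^ (e i).val) (fun x => (3 : Ei) ∣ x - 1) ?_ ?_ ?_
  · rintro a b ⟨x, hx⟩ ⟨y, hy⟩
    exact ⟨a * y + x, by linear_combination a * hy + hx⟩
  · rw [sub_self]
    exact dvd_zero _
  · exact fun i _ => three_pow (hD.pq i).three _

lemma pi_dvd_pD (hD : Dt π e) (i : J) : π i ∣ pD π e := by
  unfold pD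
  exact (dvd_pow_self (π i) (val_ne (hD.e0 i))).trans
    (Finset.dvd_prod_of_mem (fun i => π i ^ (e i).val) (Finset.mem_univ i))

lemma cf_pD (hD : Dt π e) : CF (pD π e) := Pool.Agent.Y48.CT.SEL.cf_prod hD e

lemma nunit [Nonempty J] (hD : Dt π e) : ¬ IsUnit (pD π e) := by
  intro hu
  obtain ⟨i⟩ := (inferInstance : Nonempty J)
  exact (hD.pq i).prime.not_isUnit (isUnit_of_dvd_unit (pi_dvd_pD hD i) hu)

/-- `1` if the exponent is `2` -/
def kk (c : ZMod 3) : ℕ := if c = 2 then 1 else 0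

lemma kk_eq : ∀ c : ZMod 3, c.val * 2 = (-c).val + kk c * 3 := by decide

/-- the square of `D` is the conjugate `D'` times a cube -/
lemma pD_sq : pD π e ^ 2 = pD π (fun i => -e i) * (∏ i, π i ^ kk (e i)) ^ 3 := by
  unfold pD
  rw [← Finset.prod_pow, ← Finset.prod_pow, ← Finset.prod_mul_distrib]
  refine Finset.prod_congr rfl fun i _ => ?_
  rw [← pow_mul, ← pow_mul, ← pow_add, kk_eq]

lemma negneg : (fun i => -(fun i => -e i) i) = e := by
  funext i
  exact neg_neg _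

lemma nine_neg (hD : Dt π e) (h9 : ¬ (9 : ℤ) ∣ Pool.Agent.Y692.QS.nr (pD π e) - 1) :
    ¬ (9 : ℤ) ∣ Pool.Agent.Y692.QS.nr (pD π (fun i => -e i)) - 1 := by
  rw [sum_ne_iff hD] at h9
  rw [sum_ne_iff hD.neg]
  exact sum_neg_ne h9

end

/-- twists by cubes -/
lemma tw_div {i₀ : QB} {hi : i₀ ^ 2 + i₀ + 1 = 0} {D c : Ei} (hc : c ≠ 0) {u : QB}
    {a : GK i₀ → ZMod 3} (hT : Tw hi (D * c ^ 3) u a) : Tw hi D (u / ev i₀ hi c) a := by
  have h0 : ev i₀ hi c ≠ 0 := ev_ne hi hc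
  refine ⟨?_, fun σ => ?_⟩
  · rw [div_pow, hT.cube, map_mul, map_pow, mul_div_assoc, div_self (pow_ne_zero 3 h0), mul_one]
  · rw [map_div₀, hT.act, gk_ev, mul_div_assoc]

end Pool.Agent.R419.CE
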