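import Pool.Agent.Y696.CTE.LF3
import Pool.Agent.R419.CE.Art
import Pool.Agent.R419.CE.Pd

/-!
# Project CF: the L-function over `F` for a cube-free `D`, the Artin map and the theorem

Adapted from the file `Y696/CTE/LF3.lean` (squarefree `D`).
-/

set_option autoImplicit false
set_option linter.unusedVariables false
set_option linter.unusedSectionVars false

namespace Pool.Agent.R419.CE

open NumberField IsDedekindDomain WeierstrassCurve
open Pool.Agent.W189.NF (aV eV redMap)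
open Pool.Agent.H921R2.TatePole (two_le_nm)
open Pool.Agent.Y715.T.Rs (eq0 eq0_coe card_quo)
open Pool.Agent.Y703.CT
open Pool.Agent.Y696 Pool.Agent.Y696.CT
open Pool.Agent.Y696.CTK
open Pool.Agent.Y696.CTE
open Pool.Agent.Y715.T.Gi (CF)
open Pool.Agent.Y692.QS (Ei w toC)
open Pool.Agent.Y715.T.Rec (cs nn)
open Pool.Agent.Y715.T.RecG (Pq cs_spec)
open Pool.Agent.W192.HK Pool.Agent.TH936.CM Pool.Agent.TH936.PU
open scoped Classical

section recip
variable {J : Type} [Fintype J] {π : J → Ei} {e : J → ZMod 3}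

/-- reciprocity for the symbols with `D` -/
lemma cs_pD (hrec : S_REC) (hdt : Dt π e) {α : Ei} (hα : Pq α)
    (hnd : ¬ α ∣ pD π e) : cs α (pD π e) = ∑ i, e i * cs (π i) α := by
  have h1 : ∀ i, ¬ α ∣ π i := fun i hi => hnd (hi.trans (pi_dvd_pD hdt i))
  have h2 : ∀ i, ¬ π i ∣ α := fun i hi => h1 i
    ((hdt.pq i).prime.associated_of_dvd hα.prime hi).symm.dvd
  unfold pD
  rw [Pool.Agent.Y715.T.RecG.cs_prod hα.prime hα.norm Finset.univ (fun i => π i ^ (e i).val)
    (fun i _ h => h1 i (hα.prime.dvd_of_dvd_pow h))]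
  refine Finset.sum_congr rfl fun i _ => ?_
  rw [Pool.Agent.Y715.T.RecG.cs_pow hα.prime hα.norm (h1 i), ZMod.natCast_zmod_val,
    hrec (π i) α (hdt.pq i) hα (h1 i)]

end recip

section main
variable {K F : Type} [Field K] [NumberField K] [Field F] [NumberField F] [Algebra K F]
variable {J : Type} [Fintype J] {π : J → Ei} {e : J → ZMod 3}

/-- the data of the extension with its Artin map -/
theorem mkDatE (hrec : S_REC) (j : Ei ≃+* 𝓞 K) (hdt : Dt π e) {θ : 𝓞 F}
    (hC : Cub j (pD π e) θ) [IsGalois K F] {σ : F ≃ₐ[K] F} (h3 : σ ^ 3 = 1)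
    (h1 : σ ≠ 1) (hg : ∀ g : F ≃ₐ[K] F, ∃ c : ZMod 3, g = σ ^ c.val)
    (hunr : ∀ v : HeightOneSpectrum (𝓞 F),
      algebraMap (𝓞 K) (𝓞 F) (j (3 * pD π e)) ∉ v.asIdeal →
      ∀ g : F ≃ₐ[K] F, (∀ x : 𝓞 F, g • x - x ∈ v.asIdeal) → g = 1)
    (hfrob : ∀ α : Ei, Prime α → ¬ α ∣ 3 → ¬ α ∣ pD π e →
      ∀ v : HeightOneSpectrum (𝓞 F),
      algebraMap (𝓞 K) (𝓞 F) (j α) ∈ v.asIdeal → ∀ x : 𝓞 F,
        (σ ^ (cs α (pD π e)).val) • x - x ^ Nat.card (𝓞 K ⧸ Ideal.span {j α}) ∈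
          v.asIdeal)
    {f : (𝓞 K ⧸ Ideal.span {j (3 * pD π e)})ˣ →* Multiplicative (ZMod 3)}
    (hf : Function.Surjective f)
    (hfv : ∀ (u : (𝓞 K ⧸ Ideal.span {j (3 * pD π e)})ˣ) (z α : Ei), IsUnit z →
      (3 : Ei) ∣ α - 1 → (u : 𝓞 K ⧸ Ideal.span {j (3 * pD π e)}) =
        Ideal.Quotient.mk _ (j (z * α)) → f u = Multiplicative.ofAdd (∑ i, e i * cs (π i) α)) :
    letI := cg h3 hg
    DatN (N := K) (K := F) (F ≃ₐ[K] F) (j (3 * pD π e)) ((zh h3).comp f) := by
  letI := cg h3 hg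
  refine ⟨?_, ?_, ?_, ?_, ?_, ?_⟩
  · rw [Ne, map_eq_zero_iff _ j.injective]
    exact mul_ne_zero (by decide) hC.ne0
  · intro b hb
    exact Algebra.IsInvariant.isInvariant (A := 𝓞 K) (G := F ≃ₐ[K] F) b hb
  · intro g a
    exact smul_algebraMap (α := F ≃ₐ[K] F) g a
  · exact (zh_surj h3 hg).comp hf
  · exact hunr
  · intro ϖ hϖ u hu v hv x
    obtain ⟨p, rfl⟩ := j.surjective ϖ
    have hp : Prime p := (MulEquiv.prime_iff (j : Ei ≃* 𝓞 K)).1 hϖ
    have hcop : IsCoprime (j p) (j (3 * pD π e)) := by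
      rw [← unitN_iff]
      rw [← hu]
      exact u.isUnit
    have hnd : ∀ y : Ei, y ∣ 3 * pD π e → ¬ p ∣ y := by
      intro y hy hpy
      have h4 : IsUnit (j p) := hcop.isUnit_of_dvd' dvd_rfl (map_dvd j (hpy.trans hy))
      exact hϖ.not_isUnit h4
    have hp3 : ¬ p ∣ 3 := hnd 3 (dvd_mul_right _ _)
    have hpD : ¬ p ∣ pD π e := hnd _ (dvd_mul_left _ _)
    obtain ⟨z, α, hz, hα, hpz, hass⟩ := exists_primary hp hp3
    have h5 := hfv u z α hz hα.three (by rw [hu, hpz])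
    have h6 : cs p (pD π e) = ∑ i, e i * cs (π i) α := by
      rw [cs_assoc hp hp3 hα hass hpD, cs_pD hrec hdt hα fun h => hpD (hass.dvd.trans h)]
    have h7 : ((zh h3).comp f) u = σ ^ (cs p (pD π e)).val := by
      rw [MonoidHom.comp_apply, h5, zh_apply, h6]
    rw [h7]
    exact hfrob p hp hp3 hpD v hv x

/-- **The factorization of the L-function over `F`.** -/
theorem LF_main (hE6 : S_E6) (hGAL : S_GAL) (hrec : S_REC)
    (j : Ei ≃+* 𝓞 K) (hdt : Dt π e)
    (h9 : ¬ (9 : ℤ) ∣ Pool.Agent.Y692.QS.nr (pD π e) - 1) {θ : 𝓞 F}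
    (hC : Cub j (pD π e) θ) {F1 F2 : ℂ → ℂ}
    (k1 : IsHL π e F1) (k2 : IsHL π (fun i => -e i) F2) {s : ℂ} (hs : 3 / 2 < s.re) :
    LSeriesSummable ((fun n : ℤ => (n : ℂ)) ∘ (E0 F).LFunction) s ∧
    (E0 F).LSeries s = (E0 K).LSeries s * (F1 s * (starRingEnd ℂ) (F2 ((starRingEnd ℂ) s))) *
      (F2 s * (starRingEnd ℂ) (F1 ((starRingEnd ℂ) s))) := by
  obtain ⟨hgal, σ, h3, h1, hg, hσθ, hunr, hfrob⟩ := hGAL K F j _ θ hC
  obtain ⟨f, hf, hfv⟩ := art K j J π e hdt h9
  have h3D : (3 : Ei) ∣ pD π e - 1 := three_pD hdt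
  let _ := cg h3 hg
  have hD := mkDatE hrec j hdt hC h3 h1 hg hunr hfrob hf hfv
  have hfinM : Finite (MulChar (F ≃ₐ[K] F) ℂ) := inferInstance
  have : Fintype (MulChar (F ≃ₐ[K] F) ℂ) := Fintype.ofFinite _
  have h3F : ∀ v : HeightOneSpectrum (𝓞 F), (3 : 𝓞 F) ∈ v.asIdeal →
      aV (E0 F) v = 0 ∧ eV (E0 F) v = 0 := fun v hv =>
    aV_bad6 (hE6 K F j _ θ hC h3D h9 v hv)
  have hF := LSeries_hasProd' (E0 F) (hasseA ((algebraMap (𝓞 K) (𝓞 F)).comp (io j)) h3F) hs
  have hK := LSeries_hasProd' (E0 K) (hasseN (io j) (val3_K j)) hs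
  refine ⟨hF.1, ?_⟩
  have q1 : HasProd (fun v : HeightOneSpectrum (𝓞 F) => XX v s) ((E0 F).LSeries s) := hF.2
  have q2 : HasProd (fun P : HeightOneSpectrum (𝓞 K) => XX P s) ((E0 K).LSeries s) := hK.2
  have q3 := (Equiv.sigmaFiberEquiv (und (F := K) (K := F))).hasProd_iff.2 q1
  have q4 : HasProd (fun P : HeightOneSpectrum (𝓞 K) =>
      ∏ v : {v : HeightOneSpectrum (𝓞 F) // und v = P}, XX v.1 s) ((E0 F).LSeries s) := by
    refine q3.sigma fun P => ?_
    exact hasProd_fintype _ (.unconditional _)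
  have k1' : IsHL π (fun i => -(fun i => -e i) i) F1 := by
    rw [negneg]
    exact k1
  have q5 := eul j (e := e) hdt.pq k1 k2 hs
    (x := fun y => chD π e (j.symm y)) (fun α _ => by rw [j.symm_apply_apply])
  have q6 := eul j (e := fun i => -e i) hdt.pq k2 k1' hs
    (x := fun y => chD π (fun i => -e i) (j.symm y)) (fun α _ => by rw [j.symm_apply_apply])
  refine q4.unique (((q2.mul q5).mul q6).congr_fun fun P => ?_)
  show _ = XX P s * ZZ' (fun y => chD π e (j.symm y)) (vp j) P s *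
    ZZ' (fun y => chD π (fun i => -e i) (j.symm y)) (vp j) P s
  by_cases h3P : (3 : 𝓞 K) ∈ P.asIdeal
  · have e1 : ∀ x : 𝓞 K → ℂ, ZZ' x (vp j) P s = 1 := fun x => if_pos h3P
    obtain ⟨a1, a2⟩ := bad_K j P h3P
    have e2 : XX P s = 1 := by
      unfold XX
      rw [a1, a2]
      simp
    rw [e1, e1, e2, mul_one, mul_one]
    refine Finset.prod_eq_one fun v _ => ?_
    have h8 : (3 : 𝓞 F) ∈ v.1.asIdeal := by
      have h7 := v.2
      rw [← map_ofNat (algebraMap (𝓞 K) (𝓞 F)) 3, ← mem_und, h7]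
      exact h3P
    obtain ⟨a3, a4⟩ := h3F v.1 h8
    unfold XX
    rw [a3, a4]
    simp
  · have e1 : ∀ x : 𝓞 K → ℂ, ZZ' x (vp j) P s = YY P (x (vp j P)) s := fun x => if_neg h3P
    rw [e1, e1]
    obtain ⟨Q, rfl⟩ := (eK j).surjective P
    have hP : eK j Q = pK j Q := rfl
    rw [hP] at h3P ⊢
    have h3Q : ¬ (3 : ℤ) ∣ Pool.Agent.Y692.QS.nr (Pool.Agent.Y696.CT.gn Q.asIdeal) :=
      fun h' => h3P ((three_iff j Q).2 h')
    obtain ⟨hpq, -, -, -⟩ := prime_data j h3Q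
    rw [vp_pK, j.symm_apply_apply]
    have hspan : Ideal.span {j (g0 Q)} = (pK j Q).asIdeal := (pK_span j (g0_span Q)).symm
    by_cases hDQ : g0 Q ∣ pD π e
    · have h0 : ∀ e : J → ZMod 3, chD π e (g0 Q) = 0 := fun e =>
        chD_bad hpq.prime hdt (Or.inl rfl) hDQ e
      have hy : YY (pK j Q) 0 s = 1 := by
        unfold YY
        simp
      rw [h0, h0, hy, mul_one, mul_one]
      obtain ⟨v, hv1, hv2⟩ := ramf K F j _ θ hC (cf_pD hdt) (pK j Q) (by
        rw [mem_pK, g0_span Q, Ideal.mem_span_singleton]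
        exact hDQ)
      have hund : ∀ u : HeightOneSpectrum (𝓞 F), und u = pK j Q ↔ u = v := by
        intro u
        rw [← hv1 u]
        constructor
        · intro h
          exact congrArg HeightOneSpectrum.asIdeal h
        · intro h
          exact HeightOneSpectrum.ext h
      have hu : Unique {u : HeightOneSpectrum (𝓞 F) // und u = pK j Q} :=
        ⟨⟨⟨v, (hund v).2 rfl⟩⟩, fun u => Subtype.ext ((hund u.1).1 u.2)⟩
      have hval : ∀ u : {u : HeightOneSpectrum (𝓞 F) // und u = pK j Q},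
          XX u.1 s = XX (pK j Q) s := by
        intro u
        have h5 := (hund u.1).1 u.2
        exact XX_deg1 j u.2 h3P (by rw [h5, hv2]) s
      rw [Finset.prod_congr rfl fun u _ => hval u, Finset.prod_const, Finset.card_univ]
      have hc1 : Fintype.card {u : HeightOneSpectrum (𝓞 F) // und u = pK j Q} = 1 := by
        rw [Fintype.card_eq_one_iff]
        exact ⟨⟨v, (hund v).2 rfl⟩, fun u => Subtype.ext ((hund u.1).1 u.2)⟩
      rw [hc1, pow_one]
    · have hPc : j (3 * pD π e) ∉ (pK j Q).asIdeal := by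
        rw [mem_pK, g0_span Q, Ideal.mem_span_singleton]
        intro h
        rcases hpq.prime.dvd_or_dvd h with h' | h'
        · exact hpq.norm h'
        · exact hDQ h'
      have hcop : IsCoprime (j (g0 Q)) (j (3 * pD π e)) := by
        have hmax : (pK j Q).asIdeal.IsMaximal := (pK j Q).isPrime.isMaximal (pK j Q).ne_bot
        rw [← Ideal.isCoprime_span_singleton_iff, hspan, Ideal.isCoprime_iff_sup_eq]
        refine hmax.out.2 _ ?_
        refine lt_of_le_of_ne le_sup_left fun he => hPc ?_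
        rw [he]
        exact Ideal.mem_sup_right (Ideal.mem_span_singleton_self _)
      obtain ⟨u, hu⟩ := (unitN_iff (j (g0 Q))).2 hcop
      have hfu := hfv u 1 (g0 Q) isUnit_one hpq.three (by rw [one_mul]; exact hu)
      have hart : ((zh h3).comp f) u = σ ^ (∑ i, e i * cs (π i) (g0 Q)).val := by
        rw [MonoidHom.comp_apply, hfu, zh_apply]
      rw [fib_goodN (io j) hD hPc h3P hspan hu (by linarith), hart,
        prod_chars h3 h1 hg (fun z => YY (pK j Q) z s), XX_YY j (pK j Q) h3P]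
      have hnd : ¬ ∃ i, π i ∣ g0 Q := by
        rintro ⟨i, hi⟩
        apply hDQ
        have h5 := ((hdt.pq i).prime.associated_of_dvd hpq.prime hi).symm.dvd
        exact h5.trans (pi_dvd_pD hdt i)
      have c1 : chD π e (g0 Q) = toC w ^ (∑ i, e i * cs (π i) (g0 Q)).val := by
        unfold chD
        rw [if_neg hnd]
      have c2 : chD π (fun i => -e i) (g0 Q) = toC w ^ (-∑ i, e i * cs (π i) (g0 Q)).val := by
        unfold chD
        rw [if_neg hnd]
        congr 2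
        rw [← Finset.sum_neg_distrib]
        exact Finset.sum_congr rfl fun i _ => neg_mul _ _
      rw [c1, c2]

end main

end Pool.Agent.R419.CE
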