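import Pool.Agent.Y696.CTP.Half
import Pool.Agent.R419.CE.LF3

/-!
# Project CF: one half of the L-function over the cubic extension, for a cube-free `D`

Adapted from the file `Y696/CTP/Half.lean` (squarefree `D`).
-/

set_option autoImplicit false
set_option linter.unusedVariables false
set_option linter.unusedSectionVars false

namespace Pool.Agent.R419.CE

open NumberField IsDedekindDomain WeierstrassCurve Filter Topology
open Pool.Agent.W189.NF (aV eV redMap)
open Pool.Agent.W192.CM (nu)
open Pool.Agent.H921R2.TatePole (two_le_nm)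
open Pool.Agent.Y715.T.Rs (eq0 eq0_coe card_quo)
open Pool.Agent.Y703.CT
open Pool.Agent.Y696 Pool.Agent.Y696.CT
open Pool.Agent.Y696.CTK
open Pool.Agent.Y696.CTE
open Pool.Agent.Y696.CTP
open Pool.Agent.Y715.T.Gi (CF)
open Pool.Agent.Y692.QS (Ei w toC)
open Pool.Agent.Y715.T.Rec (cs nn)
open Pool.Agent.Y715.T.RecG (Pq cs_spec)
open Pool.Agent.W192.HK Pool.Agent.TH936.CM Pool.Agent.TH936.PU
open scoped Classical

section main
variable {K F : Type} [Field K] [NumberField K] [Field F] [NumberField F] [Algebra K F]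
variable {J : Type} [Fintype J] {π : J → Ei} {e : J → ZMod 3}

/-- **The factorization of the half of the L-function over `F`.** -/
theorem half_main (hGAL : S_GAL) (hrec : S_REC)
    (j : Ei ≃+* 𝓞 K) (hdt : Dt π e)
    (h9 : ¬ (9 : ℤ) ∣ Pool.Agent.Y692.QS.nr (pD π e) - 1) {θ : 𝓞 F}
    (hC : Cub j (pD π e) θ) {G F1 F2 : ℂ → ℂ}
    {s : ℂ} (hs : 3 / 2 < s.re)
    (k0 : HasProd (fun v : HeightOneSpectrum (𝓞 K) => yw (io j) v s) (G s))
    (k1 : IsHL π e F1) (k2 : IsHL π (fun i => -e i) F2) :
    HasProd (fun v : HeightOneSpectrum (𝓞 F) =>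
      yw ((algebraMap (𝓞 K) (𝓞 F)).comp (io j)) v s) (G s * F1 s * F2 s) := by
  obtain ⟨hgal, σ, h3, h1, hg, hσθ, hunr, hfrob⟩ := hGAL K F j _ θ hC
  obtain ⟨f, hf, hfv⟩ := art K j J π e hdt h9
  let _ := cg h3 hg
  have hD := mkDatE hrec j hdt hC h3 h1 hg hunr hfrob hf hfv
  have hfinM : Finite (MulChar (F ≃ₐ[K] F) ℂ) := inferInstance
  have : Fintype (MulChar (F ≃ₐ[K] F) ℂ) := Fintype.ofFinite _
  set ι' : eis →+* 𝓞 F := (algebraMap (𝓞 K) (𝓞 F)).comp (io j) with hι'
  obtain ⟨Y, hY⟩ := yw_multN ι' hs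
  have q3 := (Equiv.sigmaFiberEquiv (und (F := K) (K := F))).hasProd_iff.2 hY
  have q4 : HasProd (fun P : HeightOneSpectrum (𝓞 K) =>
      ∏ v : {v : HeightOneSpectrum (𝓞 F) // und v = P}, yw ι' v.1 s) Y := by
    refine q3.sigma fun P => ?_
    exact hasProd_fintype _ (.unconditional _)
  have q5 := eulh j (e := e) hdt.pq k1 hs
    (x := fun y => chD π e (j.symm y)) (fun α _ => by rw [j.symm_apply_apply])
  have q6 := eulh j (e := fun i => -e i) hdt.pq k2 hs
    (x := fun y => chD π (fun i => -e i) (j.symm y)) (fun α _ => by rw [j.symm_apply_apply])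
  have key := q4.unique (((k0.mul q5).mul q6).congr_fun fun P => ?_)
  · rw [← key]
    exact hY
  show _ = yw (io j) P s * HH (io j) P (chD π e (j.symm (vp j P))) s *
    HH (io j) P (chD π (fun i => -e i) (j.symm (vp j P))) s
  by_cases h3P : (3 : 𝓞 K) ∈ P.asIdeal
  · have e1 : ∀ x : ℂ, HH (io j) P x s = 1 := fun x => by
      unfold Pool.Agent.Y696.HH
      rw [pw_threeN (io j) h3P, zero_mul, mul_zero, sub_zero, inv_one]
    rw [e1, e1, yw_threeN (io j) h3P, mul_one, mul_one]
    refine Finset.prod_eq_one fun v _ => yw_threeN ι' ?_ s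
    have h7 := v.2
    rw [← map_ofNat (algebraMap (𝓞 K) (𝓞 F)) 3, ← mem_und, h7]
    exact h3P
  · obtain ⟨Q, rfl⟩ := (eK j).surjective P
    have hP : eK j Q = pK j Q := rfl
    rw [hP] at h3P ⊢
    have h3Q : ¬ (3 : ℤ) ∣ Pool.Agent.Y692.QS.nr (Pool.Agent.Y696.CT.gn Q.asIdeal) :=
      fun h' => h3P ((three_iff j Q).2 h')
    obtain ⟨hpq, -, -, -⟩ := prime_data j h3Q
    rw [vp_pK, j.symm_apply_apply]
    have hspan : Ideal.span {j (g0 Q)} = (pK j Q).asIdeal := (pK_span j (g0_span Q)).symm
    by_cases hDQ : g0 Q ∣ pD π e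
    · have h0 : ∀ e : J → ZMod 3, chD π e (g0 Q) = 0 := fun e =>
        chD_bad hpq.prime hdt (Or.inl rfl) hDQ e
      have hy : HH (io j) (pK j Q) 0 s = 1 := by
        unfold Pool.Agent.Y696.HH
        rw [zero_mul, sub_zero, inv_one]
      rw [h0, h0, hy, mul_one, mul_one]
      obtain ⟨v, hv1, hv2⟩ := ramf K F j _ θ hC (cf_pD hdt) (pK j Q) (by
        rw [mem_pK, g0_span Q, Ideal.mem_span_singleton]
        exact hDQ)
      have hund : ∀ u : HeightOneSpectrum (𝓞 F), und u = pK j Q ↔ u = v := by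
        intro u
        rw [← hv1 u]
        constructor
        · intro h
          exact congrArg HeightOneSpectrum.asIdeal h
        · intro h
          exact HeightOneSpectrum.ext h
      have hval : ∀ u : {u : HeightOneSpectrum (𝓞 F) // und u = pK j Q},
          yw ι' u.1 s = yw (io j) (pK j Q) s := by
        intro u
        have h5 := (hund u.1).1 u.2
        exact yw_deg1 j u.2 (by rw [h5, hv2]) s
      rw [Finset.prod_congr rfl fun u _ => hval u, Finset.prod_const, Finset.card_univ]
      have hc1 : Fintype.card {u : HeightOneSpectrum (𝓞 F) // und u = pK j Q} = 1 := by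
        rw [Fintype.card_eq_one_iff]
        exact ⟨⟨v, (hund v).2 rfl⟩, fun u => Subtype.ext ((hund u.1).1 u.2)⟩
      rw [hc1, pow_one]
    · have hPc : j (3 * pD π e) ∉ (pK j Q).asIdeal := by
        rw [mem_pK, g0_span Q, Ideal.mem_span_singleton]
        intro h
        rcases hpq.prime.dvd_or_dvd h with h' | h'
        · exact hpq.norm h'
        · exact hDQ h'
      have hcop : IsCoprime (j (g0 Q)) (j (3 * pD π e)) := by
        have hmax : (pK j Q).asIdeal.IsMaximal := (pK j Q).isPrime.isMaximal (pK j Q).ne_bot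
        rw [← Ideal.isCoprime_span_singleton_iff, hspan, Ideal.isCoprime_iff_sup_eq]
        refine hmax.out.2 _ ?_
        refine lt_of_le_of_ne le_sup_left fun he => hPc ?_
        rw [he]
        exact Ideal.mem_sup_right (Ideal.mem_span_singleton_self _)
      obtain ⟨u, hu⟩ := (unitN_iff (j (g0 Q))).2 hcop
      have hfu := hfv u 1 (g0 Q) isUnit_one hpq.three (by rw [one_mul]; exact hu)
      have hart : ((zh h3).comp f) u = σ ^ (∑ i, e i * cs (π i) (g0 Q)).val := by
        rw [MonoidHom.comp_apply, hfu, zh_apply]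
      rw [fib_half (io j) hD hPc h3P hspan hu (by linarith), hart,
        prod_chars h3 h1 hg (fun z => HH (io j) (pK j Q) z s), HH_one]
      have hnd : ¬ ∃ i, π i ∣ g0 Q := by
        rintro ⟨i, hi⟩
        apply hDQ
        have h5 := ((hdt.pq i).prime.associated_of_dvd hpq.prime hi).symm.dvd
        exact h5.trans (pi_dvd_pD hdt i)
      have c1 : chD π e (g0 Q) = toC w ^ (∑ i, e i * cs (π i) (g0 Q)).val := by
        unfold chD
        rw [if_neg hnd]
      have c2 : chD π (fun i => -e i) (g0 Q) = toC w ^ (-∑ i, e i * cs (π i) (g0 Q)).val := by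
        unfold chD
        rw [if_neg hnd]
        congr 2
        rw [← Finset.sum_neg_distrib]
        exact Finset.sum_congr rfl fun i _ => neg_mul _ _
      rw [c1, c2]

end main

end Pool.Agent.R419.CE
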