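import Pool.Agent.R419.CE.Pd

/-!
# Project CF: both twists `D` and `D²` over `K`, for a cube-free `D`

Adapted from the file `Y696/CTE/Tw.lean` (squarefree `D`).
-/

set_option autoImplicit false
set_option linter.unusedVariables false

open scoped Classical

namespace Pool.Agent.R419.CE

open NumberField IsDedekindDomain WeierstrassCurve WithZero
open Pool.Agent.Y692.QS (Ei w toC)
open Pool.Agent.Y715.T.RecG (Pq)
open Pool.Agent.Y703.CT
open Pool.Agent.Y715.T.Gi Pool.Agent.Y715.T.Nr Pool.Agent.Y715.T.Df Pool.Agent.Y715.T.Ell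
open Pool.Agent.TH841.NF.D (Sha)
open Pool.Agent.Y696.CTK

section
variable {J : Type} [Fintype J] {π : J → Ei} {e : J → ZMod 3}

/-- the points and the Tate-Shafarevich groups of both twists -/
theorem both (P : Parts) {K : Type} [Field K] [NumberField K] (j : Ei ≃+* 𝓞 K) [Nonempty J]
    (hD : Dt π e) (hk : Ker π e)
    (h9 : ¬ (9 : ℤ) ∣ Pool.Agent.Y692.QS.nr (pD π e) - 1) :
    (Finite (ED (j (pD π e) : K)).toAffine.Point ∧
      ∀ (n : ℕ) (x : Sha (ED (j (pD π e) : K))), 3 ^ n • x = 0 → x = 0) ∧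
    (Finite (ED (j (pD π e ^ 2) : K)).toAffine.Point ∧
      ∀ (n : ℕ) (x : Sha (ED (j (pD π e ^ 2) : K))), 3 ^ n • x = 0 → x = 0) := by
  have hne : pD π e ≠ 0 := Pool.Agent.Y153.CTRAM.ne_zero_of hD
  have hc : (∏ i, π i ^ kk (e i)) ≠ 0 :=
    Finset.prod_ne_zero_iff.2 fun i _ => pow_ne_zero _ (hD.pq i).prime.ne_zero
  have h2 : pD π e ^ 2 ≠ 0 := pow_ne_zero 2 hne
  have key : ∀ (i₀ : QB) (hi : i₀ ^ 2 + i₀ + 1 = 0) (u : QB) (a : GK i₀ → ZMod 3),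
      Tw hi (pD π e ^ 2) u a → ShK hi a ∧ MwK hi a := fun i₀ hi u a hT => by
    rw [pD_sq] at hT
    exact descK hD.neg hk.neg (nine_neg hD h9) (tw_div hc hT)
  exact ⟨⟨(P.mwt P.trf K j _ hne fun i₀ hi u a hT => (descK hD hk h9 hT).2).1,
      P.sht P.trf K j _ hne fun i₀ hi u a hT => (descK hD hk h9 hT).1⟩,
    ⟨(P.mwt P.trf K j _ h2 fun i₀ hi u a hT => (key i₀ hi u a hT).2).1,
      P.sht P.trf K j _ h2 fun i₀ hi u a hT => (key i₀ hi u a hT).1⟩⟩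

/-- the two functions -/
theorem two_F' [Nonempty J] (hD : Dt π e)
    (h9 : ¬ (9 : ℤ) ∣ Pool.Agent.Y692.QS.nr (pD π e) - 1) :
    ∃ F1 F2 : ℂ → ℂ, IsHL π e F1 ∧ IsHL π (fun i => -e i) F2 ∧
      (Ker π e → F1 1 ≠ 0 ∧ F2 1 ≠ 0) := by
  by_cases hk : Ker π e
  · obtain ⟨F2, h1, h2⟩ := Pool.Agent.Y696.CTE.val_ne hD hk h9
    obtain ⟨F1, h3, h4⟩ := Pool.Agent.Y696.CTE.val_ne hD.neg hk.neg (nine_neg hD h9)
    rw [negneg] at h3
    exact ⟨F1, F2, h3, h1, fun _ => ⟨h4, h2⟩⟩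
  · obtain ⟨F2, h1, -⟩ := val_sq hD h9
    obtain ⟨F1, h3, -⟩ := val_sq hD.neg (nine_neg hD h9)
    rw [negneg] at h3
    exact ⟨F1, F2, h3, h1, fun h => absurd h hk⟩

end

end Pool.Agent.R419.CE
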