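import Pool.Agent.Y696.CTP.Asm
import Pool.Agent.R419.CE.Tw
import Pool.Agent.R419.CE.Half

/-!
# Project CF: `y² + y = x³` over the pure cubic fields `ℚ(∛N)`, `N` cube-free: one field

Adapted from the files `Y696/CTE/Asm.lean` and `Y696/CTP/Asm.lean` (squarefree `N`).
-/

set_option autoImplicit false
set_option linter.unusedVariables false

open scoped Classical

namespace Pool.Agent.R419.CE

open NumberField IsDedekindDomain WeierstrassCurve WithZero
open Pool.Agent.Y692.QS (Ei w toC)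
open Pool.Agent.Y715.T.RecG (Pq)
open Pool.Agent.Y703.CT
open Pool.Agent.TH841.NF.D (Sha)
open Pool.Agent.Y696 Pool.Agent.Y696.CT Pool.Agent.Y696.CTK
open Pool.Agent.Y696.CTE (io Cub PartsE LawE root_int L0_ex fin_one S_GAL)
open Pool.Agent.Y696.CTP (S_CMP S_SHP half_one bad_half mkQt Qt pts_half)
open Pool.Agent.TH936.CM Pool.Agent.TH936.PU

/-- the theorem for one extension -/
theorem lawE (P : Parts) (Q : PartsE) {K : Type} [Field K] [NumberField K]
    [IsCyclotomicExtension {3} ℚ K] (j : Ei ≃+* 𝓞 K)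
    {J : Type} [Fintype J] [Nonempty J] {π : J → Ei} {e : J → ZMod 3} (hD : Dt π e)
    (h9 : ¬ (9 : ℤ) ∣ Pool.Agent.Y692.QS.nr (pD π e) - 1)
    {F : Type} [Field F] [NumberField F] [Algebra K F] (hdeg : Module.finrank K F = 3) (θ : 𝓞 F)
    (hθ : θ ^ 3 = algebraMap (𝓞 K) (𝓞 F) (j (pD π e))) :
    LawE F (Ker π e) := by
  have hne : pD π e ≠ 0 := Pool.Agent.Y153.CTRAM.ne_zero_of hD
  have hC : Cub j (pD π e) θ := ⟨hdeg, hθ, hne, ncube (cf_pD hD) (nunit hD)⟩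
  obtain ⟨F1, F2, k1, k2, hF⟩ := two_F' hD h9
  obtain ⟨L0, hL0d, hL0s, hL01⟩ := L0_ex (K := K) j
  have hcj : ∀ {G : ℂ → ℂ}, Differentiable ℂ G →
      Differentiable ℂ (fun s => (starRingEnd ℂ) (G ((starRingEnd ℂ) s))) := by
    intro G hG s
    have h1 := (hG ((starRingEnd ℂ) s)).conj_conj
    rw [Complex.conj_conj] at h1
    exact h1
  refine ⟨fun s => L0 s * (F1 s * (starRingEnd ℂ) (F2 ((starRingEnd ℂ) s))) *
      (F2 s * (starRingEnd ℂ) (F1 ((starRingEnd ℂ) s))),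
    (hL0d.mul (k1.1.mul (hcj k2.1))).mul (k2.1.mul (hcj k1.1)), fun s hs => ?_, fun hk => ?_⟩
  · obtain ⟨a1, a2⟩ := LF_main Q.e6 Q.gal Pool.Agent.Y350.CT.rec j hD h9 hC k1 k2 hs
    refine ⟨a1, ?_⟩
    have a3 : (ED (1 : F)).LSeries s = (E0 F).LSeries s := rfl
    rw [a3, a2, ← (hL0s s hs).2]
  · obtain ⟨h1, h2⟩ := hF hk
    refine ⟨?_, ?_, ?_⟩
    · have hc : ∀ z : ℂ, z ≠ 0 → (starRingEnd ℂ) z ≠ 0 := fun z hz => (map_ne_zero _).2 hz
      simp only [map_one]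
      exact mul_ne_zero (mul_ne_zero hL01 (mul_ne_zero h1 (hc _ h2))) (mul_ne_zero h2 (hc _ h1))
    · obtain ⟨⟨b1, -⟩, ⟨b3, -⟩⟩ := both P j hD hk h9
      exact Q.mwf K F j _ θ hC fin_one b1 b3
    · obtain ⟨⟨-, b2⟩, ⟨-, b4⟩⟩ := both P j hD hk h9
      exact Q.shf K F j _ θ hC (Q.sh1 K j) b2 b4

section small
variable {k K F : Type} [Field k] [NumberField k] [Field K] [NumberField K] [Field F]
  [NumberField F] [Algebra K F] [Algebra k F]

/-- the theorem for one field -/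
theorem law_small (P : Parts) (Q : PartsE) (hshp : S_SHP) [IsCyclotomicExtension {3} ℚ K]
    (j : Ei ≃+* 𝓞 K) {J : Type} [Fintype J] [Nonempty J] {π : J → Ei} {e : J → ZMod 3}
    (hD : Dt π e)
    (h9 : ¬ (9 : ℤ) ∣ Pool.Agent.Y692.QS.nr (pD π e) - 1)
    (hdeg : Module.finrank K F = 3) (θ : 𝓞 F)
    (hθ : θ ^ 3 = algebraMap (𝓞 K) (𝓞 F) (j (pD π e)))
    (h2 : Module.finrank k F = 2) (hns : ∀ x : k, x ^ 2 ≠ -3) :
    LawE k (Ker π e) := by
  have hne : pD π e ≠ 0 := Pool.Agent.Y153.CTRAM.ne_zero_of hD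
  have hC : Cub j (pD π e) θ := ⟨hdeg, hθ, hne, ncube (cf_pD hD) (nunit hD)⟩
  have h3D : (3 : Ei) ∣ pD π e - 1 := three_pD hD
  obtain ⟨F1, F2, k1, k2, hF⟩ := two_F' hD h9
  obtain ⟨G, hGd, hGs, hG1⟩ := half_one (K := K) j
  obtain ⟨τ, hQ⟩ := mkQt (K := F) h2 (bad_half (K := F) fun w hw => Q.e6 K F j _ θ hC h3D h9 w hw)
    hns ((algebraMap (𝓞 K) (𝓞 F)).comp (io j))
  refine ⟨fun s => G s * F1 s * F2 s, (hGd.mul k1.1).mul k2.1, fun s hs => ?_, fun hk => ?_⟩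
  · have hY := half_main Q.gal Pool.Agent.Y350.CT.rec j hD h9 hC hs (hGs s hs) k1 k2
    exact hQ.LK0 hs hY
  · obtain ⟨h1, h2'⟩ := hF hk
    obtain ⟨Lf, -, -, h5⟩ := lawE P Q j hD h9 hdeg θ hθ
    obtain ⟨-, h6, h7⟩ := h5 hk
    exact ⟨mul_ne_zero (mul_ne_zero hG1 h1) h2', pts_half (K := F) h6, hshp k F h2 h7⟩

end small

/-- the theorem for the pure cubic field -/
theorem law_pure (P : Parts) (Q : PartsE) (hjex : S_JEX) (hcmp : S_CMP) (hshp : S_SHP)
    {N : ℕ} (hN : Cls N)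
    (k : Type) [Field k] [NumberField k] (θ : k) (hdeg : Module.finrank ℚ k = 3)
    (hθ : θ ^ 3 = (N : k)) : LawE k (NoSplit N) := by
  obtain ⟨n, π, e, hdt, hD⟩ := Pool.Agent.Y274.CT.t_exi N hN.1
  have hJ : Nonempty (Fin n) := by
    have h1 := Pool.Agent.Y274.CT.t_cnt N hN (Fin n) π e hdt hD
    rw [Fintype.card_fin] at h1
    have h2 : n ≠ 0 := by omega
    exact ⟨⟨0, by omega⟩⟩
  have h9 : ¬ (9 : ℤ) ∣ Pool.Agent.Y692.QS.nr (pD π e) - 1 := nr_nine hN hD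
  obtain ⟨hns, K, F, i1, i2, i3, i4, i5, i6, hcyc, hKF, hkF⟩ := hcmp k hdeg
  obtain ⟨⟨j, hj⟩, -⟩ := hjex K
  obtain ⟨ε, hε, hεD⟩ : ∃ ε : ℤ, (ε = 1 ∨ ε = -1) ∧ (ε : Ei) * (N : Ei) = pD π e := by
    rcases hD with h | h
    · exact ⟨1, Or.inl rfl, by rw [h, Int.cast_one, one_mul]⟩
    · exact ⟨-1, Or.inr rfl, by rw [h, Int.cast_neg, Int.cast_one, neg_one_mul, neg_neg]⟩
  obtain ⟨θ', -, hθ'⟩ := root_int (K := K) (F := F) (D := j (pD π e))
    (θ := (ε : F) * algebraMap k F θ) (by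
      rw [mul_pow, ← map_pow, hθ, ← hεD, map_mul, map_intCast, map_natCast, map_natCast]
      rcases hε with rfl | rfl
      · simp
      · simp
        ring)
  have h := law_small (k := k) P Q hshp j hdt h9 hKF θ' hθ' hkF hns
  obtain ⟨Lf, q1, q2, q3⟩ := h
  exact ⟨Lf, q1, q2, fun hs => q3 (Pool.Agent.Y405.CT.cri Pool.Agent.Y350.CT.rec N hN hs _ π _ hdt hD)⟩

/-- the pure cubic field exists -/
lemma pure_ex {N : ℕ} (hN : Base N) (h1 : N ≠ 1) :
    ∃ (k : Type) (_ : Field k) (_ : NumberField k) (θ : k),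
      Module.finrank ℚ k = 3 ∧ θ ^ 3 = (N : k) := by
  obtain ⟨θ, hθ⟩ := IsAlgClosed.exists_pow_nat_eq ((N : ℚ) : AlgebraicClosure ℚ)
    (n := 3) (by norm_num)
  have hirr : Irreducible (Polynomial.X ^ 3 - Polynomial.C (N : ℚ)) := by
    refine (X_pow_sub_C_irreducible_iff_of_prime Nat.prime_three).2 fun b hb => h1 ?_
    have h2 : _root_.IsIntegral ℤ b := by
      have h3 : _root_.IsIntegral ℤ (b ^ 3) := by
        rw [hb]
        exact isIntegral_algebraMap (R := ℤ) (A := ℚ) (x := (N : ℤ)) |> fun h => by simpa using h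
      exact _root_.IsIntegral.of_pow (by norm_num : 0 < 3) h3
    obtain ⟨m, hm⟩ := IsIntegrallyClosed.isIntegral_iff.1 h2
    have h4 : m ^ 3 = (N : ℤ) := by
      have h5 : ((m : ℤ) : ℚ) ^ 3 = (N : ℚ) := by
        rw [← hb, ← hm]
        rfl
      exact_mod_cast h5
    have h6 : m.natAbs ^ 3 = N := by
      have := congrArg Int.natAbs h4
      rwa [Int.natAbs_pow, Int.natAbs_natCast] at this
    have h7 : m.natAbs = 1 := by
      by_contra h
      obtain ⟨p, hp, hpm⟩ := Nat.exists_prime_and_dvd h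
      exact hN.2.2 p hp (by rw [← h6]; exact pow_dvd_pow_of_dvd hpm 3)
    rw [← h6, h7, one_pow]
  have hmin : minpoly ℚ θ = Polynomial.X ^ 3 - Polynomial.C (N : ℚ) := by
    symm
    refine minpoly.eq_of_irreducible_of_monic hirr ?_ (Polynomial.monic_X_pow_sub_C _ (by norm_num))
    simp only [map_sub, map_pow, Polynomial.aeval_X, Polynomial.aeval_C, hθ]
    simp
  have hint : _root_.IsIntegral ℚ θ := Algebra.IsIntegral.isIntegral θ
  have hfd : FiniteDimensional ℚ (IntermediateField.adjoin ℚ {θ}) :=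
    IntermediateField.adjoin.finiteDimensional hint
  have hfr : Module.finrank ℚ (IntermediateField.adjoin ℚ {θ}) = 3 := by
    rw [IntermediateField.adjoin.finrank hint, hmin, Polynomial.natDegree_X_pow_sub_C]
  have hnf : NumberField (IntermediateField.adjoin ℚ {θ}) := by
    have h0 : CharZero (IntermediateField.adjoin ℚ {θ}) :=
      charZero_of_injective_algebraMap (algebraMap ℚ _).injective
    exact { to_charZero := h0, to_finiteDimensional := hfd }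
  refine ⟨IntermediateField.adjoin ℚ {θ}, inferInstance, hnf,
    ⟨θ, IntermediateField.mem_adjoin_simple_self ℚ θ⟩, hfr, ?_⟩
  apply Subtype.ext
  have h8 : θ ^ 3 = ((N : ℚ) : AlgebraicClosure ℚ) := hθ
  push_cast at h8 ⊢
  exact h8

end Pool.Agent.R419.CE
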