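import Pool.Agent.R419.CE.Asm
import Pool.Agent.R419.CF.Fin
import Pool.Agent.R419.CF.Low
import Pool.Agent.Y696.CTP.Fin

/-!
# Project CF: `y² + y = x³` over the pure cubic fields `ℚ(∛N)`, all cube-free `N` of the class
-/

set_option autoImplicit false
set_option linter.unusedVariables false

open scoped Classical

namespace Pool.Agent.R419.CE

open NumberField
open Pool.Agent.Y703.CT (Cls NoSplit)
open Pool.Agent.Y696.CTE (LawE LE RZ)

/-- the law for the pure cubic field -/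
theorem law_all {N : ℕ} (hN : Cls N) (k : Type) [Field k] [NumberField k] (θ : k)
    (hd : Module.finrank ℚ k = 3) (hθ : θ ^ 3 = (N : k)) : LawE k (NoSplit N) :=
  law_pure Pool.Agent.Y696.CTK.parts Pool.Agent.Y696.CTE.partsE Pool.Agent.Y455.CTK.jex
    Pool.Agent.Y948.CTP.cmp Pool.Agent.Y696.CTP.shp hN k θ hd hθ

/-- all pure cubic fields of `N` satisfy the theorem -/
def GPc (N : ℕ) : Prop := ∀ (k : Type) [Field k] [NumberField k] (θ : k),
  Module.finrank ℚ k = 3 → θ ^ 3 = (N : k) → RZ k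

theorem gpc_of {N : ℕ} (hN : Cls N) (hs : NoSplit N) : GPc N := fun k _ _ θ hd hθ =>
  (law_all hN k θ hd hθ).rz hs

theorem ex_field {N : ℕ} (hN : Cls N) : ∃ (k : Type) (_ : Field k) (_ : NumberField k) (θ : k),
    Module.finrank ℚ k = 3 ∧ θ ^ 3 = (N : k) := by
  refine pure_ex hN.1 ?_
  rintro rfl
  exact hN.2.1 rfl

/-- The density statement. -/
theorem dens_all (ε : ℝ) (hε : 0 < ε) : ∃ X₀ : ℕ, ∀ X : ℕ, X₀ ≤ X →
      ((∏' i : ℕ, (1 - (1 / 3 : ℝ) ^ (i + 1))) - ε) *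
        (((Finset.Icc 1 X).filter fun N => Cls N).card : ℝ) ≤
        (((Finset.Icc 1 X).filter fun N => Cls N ∧ GPc N).card : ℝ) := by
  have h1 := (Metric.tendsto_atTop.1 Pool.Agent.R419.CF.t_FIN) ε hε
  obtain ⟨X₀, h⟩ := h1
  refine ⟨X₀, fun X hX => ?_⟩
  have h2 := h X hX
  rw [Real.dist_eq, abs_lt] at h2
  have h3 := h2.1
  set A := (((Finset.Icc 1 X).filter fun N => Cls N).card : ℝ) with hA
  set B := (((Finset.Icc 1 X).filter fun D => Cls D ∧ NoSplit D).card : ℝ) with hB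
  have hA0 : 0 ≤ A := Nat.cast_nonneg _
  have h4 : (Pool.Agent.Y703.CX.c3 - ε) * A ≤ B := by
    rcases hA0.eq_or_lt with h0 | h0
    · rw [← h0, mul_zero]
      exact Nat.cast_nonneg _
    · rw [← le_div_iff₀ h0]
      linarith
  have h5 : B ≤ (((Finset.Icc 1 X).filter fun N => Cls N ∧ GPc N).card : ℝ) := by
    rw [hB]
    norm_cast
    refine Finset.card_le_card fun N hN => ?_
    obtain ⟨a1, a3, a4⟩ := Finset.mem_filter.1 hN
    exact Finset.mem_filter.2 ⟨a1, a3, gpc_of a3 a4⟩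
  exact h4.trans h5

end Pool.Agent.R419.CE
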